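import Pool.Agent.Work.MP_073f2d_co.Ad.Stmts

/-!
# MP_073f2d_co, project Ad: `StAvoid`
-/

namespace Pool.Agent.MP073f2d.Ad

open Polynomial in
theorem stAvoid : StAvoid := by
  classical
  intro ι J K _ _ _ _ Λ hΛ hcard
  let e : ι ≃ Fin (Fintype.card ι) := Fintype.equivFin ι
  let P : J → K[X] := fun j => ∑ i, C (Λ j i) * X ^ ((e i : ℕ))
  have hcoeff : ∀ j i, (P j).coeff (e i : ℕ) = Λ j i := by
    intro j i
    simp only [P, finset_sum_coeff, coeff_C_mul, coeff_X_pow]
    rw [Finset.sum_eq_single i]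
    · simp
    · intro k _ hk
      have : ((e i : ℕ)) ≠ (e k : ℕ) := by
        intro h
        exact hk (e.injective (Fin.ext h)).symm
      simp [this]
    · intro h
      exact absurd (Finset.mem_univ i) h
  have hne : ∀ j, P j ≠ 0 := by
    intro j h0
    apply hΛ j
    funext i
    rw [← hcoeff j i, h0, coeff_zero]
    rfl
  have hdeg : ∀ j, (P j).natDegree ≤ Fintype.card ι := by
    intro j
    refine natDegree_sum_le_of_forall_le _ _ ?_
    intro i _
    exact (natDegree_C_mul_X_pow_le _ _).trans (e i).2.le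
  have hQ : (∏ j, P j) ≠ 0 := Finset.prod_ne_zero_iff.2 fun j _ => hne j
  have hQd : (∏ j, P j).natDegree < Fintype.card K := by
    refine lt_of_le_of_lt (natDegree_prod_le _ _) ?_
    refine lt_of_le_of_lt (Finset.sum_le_card_nsmul _ _ _ fun j _ => hdeg j) ?_
    simpa using hcard
  obtain ⟨θ, hθ⟩ : ∃ θ : K, (∏ j, P j).eval θ ≠ 0 := by
    by_contra hcon
    push Not at hcon
    have h1 : (Finset.univ : Finset K) ⊆ (∏ j, P j).roots.toFinset := by
      intro θ _
      rw [Multiset.mem_toFinset, mem_roots hQ]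
      exact hcon θ
    have h2 := Finset.card_le_card h1
    rw [Finset.card_univ] at h2
    have h3 := (Multiset.toFinset_card_le (∏ j, P j).roots).trans (card_roots' _)
    omega
  refine ⟨fun i => θ ^ (e i : ℕ), fun j => ?_⟩
  have h1 : (P j).eval θ ≠ 0 := by
    rw [eval_prod] at hθ
    exact Finset.prod_ne_zero_iff.1 hθ j (Finset.mem_univ j)
  have h2 : (P j).eval θ = ∑ i, Λ j i * θ ^ (e i : ℕ) := by
    simp only [P, eval_finset_sum, eval_mul, eval_C, eval_pow, eval_X]
  rwa [h2] at h1

end Pool.Agent.MP073f2d.Ad
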