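import Pool.Agent.Work.MP_073f2d_co.Ad.Stmts

namespace Pool.Agent.MP073f2d.Ad

open Finset

namespace BCHAux

variable {F : Type} [Field F] [DecidableEq F]

omit [DecidableEq F] in
theorem sum_eval_eq (k : ℕ) (A B : Finset F)
    (h : ∀ j, 1 ≤ j → j ≤ 2 * k → ∑ x ∈ A, x ^ j = ∑ x ∈ B, x ^ j)
    (P : Polynomial F) (hd : P.natDegree ≤ 2 * k) (h0 : P.coeff 0 = 0) :
    ∑ x ∈ A, P.eval x = ∑ x ∈ B, P.eval x := by
  have e : ∀ S : Finset F, ∑ x ∈ S, P.eval x
      = ∑ i ∈ range (2 * k + 1), P.coeff i * ∑ x ∈ S, x ^ i := by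
    intro S
    rw [Finset.sum_congr rfl (fun x _ => Polynomial.eval_eq_sum_range' (n := 2 * k + 1)
      (by omega) x), Finset.sum_comm]
    refine Finset.sum_congr rfl fun i _ => ?_
    rw [Finset.mul_sum]
  rw [e A, e B]
  refine Finset.sum_congr rfl fun i hi => ?_
  rcases Nat.eq_zero_or_pos i with rfl | hpos
  · rw [h0]; simp
  · rw [h i hpos (by have := Finset.mem_range.1 hi; omega)]

theorem zero_of_mem_sdiff (k : ℕ) (A B : Finset F) (hA : A.card = k) (hB : B.card = k)
    (h : ∀ j, 1 ≤ j → j ≤ 2 * k → ∑ x ∈ A, x ^ j = ∑ x ∈ B, x ^ j)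
    {x : F} (hx : x ∈ A \ B) : x = 0 := by
  by_contra hx0
  set D : Finset F := (A \ B) ∪ (B \ A) with hD
  have hxD : x ∈ D := Finset.mem_union_left _ hx
  have hDcard : D.card ≤ 2 * k := by
    have h1 : D.card ≤ (A \ B).card + (B \ A).card := Finset.card_union_le _ _
    have h2 : (A \ B).card ≤ A.card := Finset.card_le_card Finset.sdiff_subset
    have h3 : (B \ A).card ≤ B.card := Finset.card_le_card Finset.sdiff_subset
    omega
  set P : Polynomial F := Polynomial.X * ∏ y ∈ D.erase x, (Polynomial.X - Polynomial.C y) with hP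
  have hdeg : P.natDegree ≤ 2 * k := by
    have h1 : P.natDegree ≤ Polynomial.natDegree (Polynomial.X : Polynomial F)
        + (∏ y ∈ D.erase x, (Polynomial.X - Polynomial.C y)).natDegree :=
      Polynomial.natDegree_mul_le
    have h2 : (∏ y ∈ D.erase x, (Polynomial.X - Polynomial.C y)).natDegree
        ≤ (D.erase x).card := by
      refine (Polynomial.natDegree_prod_le _ _).trans ?_
      simp
    have h3 : (D.erase x).card + 1 = D.card := Finset.card_erase_add_one hxD
    have h4 : Polynomial.natDegree (Polynomial.X : Polynomial F) = 1 := Polynomial.natDegree_X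
    omega
  have h0 : P.coeff 0 = 0 := by
    rw [hP, Polynomial.coeff_X_mul_zero]
  have hsum := sum_eval_eq k A B h P hdeg h0
  have hzero : ∀ y ∈ D, y ≠ x → P.eval y = 0 := by
    intro y hy hne
    rw [hP, Polynomial.eval_mul, Polynomial.eval_prod,
      Finset.prod_eq_zero (Finset.mem_erase.2 ⟨hne, hy⟩) (by simp), mul_zero]
  have hxA : x ∈ A := (Finset.mem_sdiff.1 hx).1
  have hxB : x ∉ B := (Finset.mem_sdiff.1 hx).2
  have hsA : ∑ y ∈ A, P.eval y = ∑ y ∈ A \ B, P.eval y + ∑ y ∈ A ∩ B, P.eval y := by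
    rw [← Finset.sum_union (Finset.disjoint_sdiff_inter A B), Finset.sdiff_union_inter]
  have hsB : ∑ y ∈ B, P.eval y = ∑ y ∈ B \ A, P.eval y + ∑ y ∈ A ∩ B, P.eval y := by
    rw [Finset.inter_comm, ← Finset.sum_union (Finset.disjoint_sdiff_inter B A),
      Finset.sdiff_union_inter]
  have hBA : ∑ y ∈ B \ A, P.eval y = 0 := by
    refine Finset.sum_eq_zero fun y hy => hzero y (Finset.mem_union_right _ hy) ?_
    rintro rfl
    exact hxB (Finset.mem_sdiff.1 hy).1
  have hAB : ∑ y ∈ A \ B, P.eval y = P.eval x := by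
    refine Finset.sum_eq_single_of_mem x hx fun y hy hne => hzero y (Finset.mem_union_left _ hy) hne
  have hPx : P.eval x = 0 := by
    have : ∑ y ∈ A \ B, P.eval y + ∑ y ∈ A ∩ B, P.eval y
        = ∑ y ∈ B \ A, P.eval y + ∑ y ∈ A ∩ B, P.eval y := by
      rw [← hsA, ← hsB, hsum]
    rw [hAB, hBA] at this
    exact add_right_cancel this
  rw [hP, Polynomial.eval_mul, Polynomial.eval_X, Polynomial.eval_prod] at hPx
  rcases mul_eq_zero.1 hPx with hh | hh
  · exact hx0 hh
  · obtain ⟨y, hy, hy0⟩ := Finset.prod_eq_zero_iff.1 hh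
    rw [Polynomial.eval_sub, Polynomial.eval_X, Polynomial.eval_C, sub_eq_zero] at hy0
    exact (Finset.mem_erase.1 hy).1 hy0.symm

end BCHAux

theorem stBCH : StBCH := by
  intro F _ _ _ _ k A B hA hB h
  have hall : ∀ j, 1 ≤ j → j ≤ 2 * k → ∑ x ∈ A, x ^ j = ∑ x ∈ B, x ^ j := by
    intro j
    induction j using Nat.strong_induction_on with
    | _ j ih =>
      intro h1 h2
      rcases Nat.even_or_odd' j with ⟨i, hi | hi⟩
      · have hi1 : 1 ≤ i := by omega
        have := ih i (by omega) hi1 (by omega)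
        have e : ∀ S : Finset F, ∑ x ∈ S, x ^ j = (∑ x ∈ S, x ^ i) ^ 2 := by
          intro S
          rw [CharTwo.sum_sq]
          refine Finset.sum_congr rfl fun x _ => ?_
          rw [hi, mul_comm, pow_mul]
        rw [e A, e B, this]
      · have := h ⟨i, by omega⟩
        simpa [hi] using this
  have hA0 : ∀ x ∈ A \ B, x = 0 := fun x hx => BCHAux.zero_of_mem_sdiff k A B hA hB hall hx
  have hB0 : ∀ x ∈ B \ A, x = 0 := fun x hx =>
    BCHAux.zero_of_mem_sdiff k B A hB hA (fun j h1 h2 => (hall j h1 h2).symm) hx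
  by_contra hne
  have hAB : (A \ B).Nonempty := by
    rw [Finset.sdiff_nonempty]
    intro hsub
    exact hne (Finset.eq_of_subset_of_card_le hsub (by omega))
  have hBA : (B \ A).Nonempty := by
    rw [Finset.sdiff_nonempty]
    intro hsub
    exact hne (Finset.eq_of_subset_of_card_le hsub (by omega)).symm
  obtain ⟨x, hx⟩ := hAB
  obtain ⟨y, hy⟩ := hBA
  have hx0 := hA0 x hx
  have hy0 := hB0 y hy
  subst hx0
  subst hy0
  exact (Finset.mem_sdiff.1 hx).2 (Finset.mem_sdiff.1 hy).1

end Pool.Agent.MP073f2d.Ad
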