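import Pool.Agent.Work.MP_073f2d_co.Ad.Cover

/-!
# MP_073f2d_co, project Ad: the adaptive blow-up, surjectivity and the covering
-/

namespace Pool.Agent.MP073f2d.Ad

open Finset

section Lin

variable {G X K : Type} [AddCommGroup G] [Fintype G] [DecidableEq G] [Fintype X] [DecidableEq X]
    [Field K]

/-- The linear part of the column. -/
def slin (k : ℕ) (bx px qx cx : K) (i a e : G → K) :
    (G × Fin 3 → K) →ₗ[K] (Fin k → G × Fin 3 → K) × (G × Fin 3 → K) where
  toFun y := (fun j κ => bx ^ (j : ℕ) * y κ, fun κ =>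
    ![i κ.1 * (bx ^ k * ∑ v', y (v', 0)) +
      a κ.1 * (bx ^ k * y (κ.1, 1) + px * y (κ.1, 0)) +
      e κ.1 * (bx ^ k * y (κ.1, 2) + qx * y (κ.1, 0)) +
      (1 - i κ.1) * (cx * y (κ.1, 0)),
      bx ^ k * y (κ.1, 1) + px * y (κ.1, 0), bx ^ k * y (κ.1, 2) + qx * y (κ.1, 0)] κ.2)
  map_add' y z := by
    ext κ
    · simp [mul_add]
    · obtain ⟨v, l⟩ := κ
      fin_cases l <;> simp [Finset.sum_add_distrib] <;> ring
  map_smul' r y := by
    ext κ
    · simp
      ring
    · obtain ⟨v, l⟩ := κ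
      fin_cases l <;> simp [← Finset.mul_sum] <;> ring

end Lin

section Surj

variable {G X K : Type} [AddCommGroup G] [Fintype G] [DecidableEq G] [Fintype X] [DecidableEq X]
    [Field K] [Fintype K]

omit [AddCommGroup G] [Fintype X] in
theorem surj (hMom : StMom) {k : ℕ} {σ : Finset X} (hσ : σ.card = k + 1) {b : X → K}
    (hb : Function.Injective b) (p q c : X → K) (iv av ev : G → X → K) (u : G) (t1 t2 : K)
    (hiv : ∀ x ∈ σ, iv u x = 1) (hav : ∀ x ∈ σ, av u x = t1) (hev : ∀ x ∈ σ, ev u x = t2)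
    (hD : ∀ v, v ≠ u → Del b σ (fun x => b x ^ k) p q c (iv v) (av v) (ev v) ≠ 0)
    (E : Fin k → G × Fin 3 → K) (Z : G × Fin 3 → K) :
    ∃ y : X → G × Fin 3 → K,
      ∑ x ∈ σ, slin k (b x) (p x) (q x) (c x) (fun v => iv v x) (fun v => av v x)
        (fun v => ev v x) (y x) = (E, Z) := by
  classical
  set Sx : X → (G × Fin 3 → K) →ₗ[K] (Fin k → G × Fin 3 → K) × (G × Fin 3 → K) := fun x =>
    slin k (b x) (p x) (q x) (c x) (fun v => iv v x) (fun v => av v x) (fun v => ev v x) with hSx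
  set Φ : ({x // x ∈ σ} → G × Fin 3 → K) →ₗ[K] (Fin k → G × Fin 3 → K) × (G × Fin 3 → K) :=
    ∑ x : {x // x ∈ σ}, (Sx x.1) ∘ₗ (LinearMap.proj x) with hΦ
  have hΦa : ∀ y, Φ y = ∑ x : {x // x ∈ σ}, Sx x.1 (y x) := by
    intro y
    rw [hΦ, LinearMap.sum_apply]
    rfl
  set ext : ({x // x ∈ σ} → G × Fin 3 → K) → X → G × Fin 3 → K := fun y x =>
    if h : x ∈ σ then y ⟨x, h⟩ else 0 with hext
  have hΦb : ∀ y, Φ y = ∑ x ∈ σ, Sx x (ext y x) := by
    intro y
    rw [hΦa, ← Finset.sum_coe_sort σ (fun x => Sx x (ext y x))]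
    apply Finset.sum_congr rfl
    intro x _
    rw [hext]
    simp
  have hinj : Function.Injective Φ := by
    rw [← LinearMap.ker_eq_bot, LinearMap.ker_eq_bot']
    intro y hy
    rw [hΦb] at hy
    have hy1 := congrArg Prod.fst hy
    have hy2 := congrArg Prod.snd hy
    rw [Prod.fst_sum] at hy1
    rw [Prod.snd_sum] at hy2
    have key := inj_core hMom hσ hb p q c iv av ev u t1 t2 hiv hav hev hD (ext y) ?_ ?_ ?_ ?_
    · funext x
      have h := key x.1 x.2
      rw [hext] at h
      simpa using h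
    · intro i hi κ
      have h := congrFun (congrFun hy1 ⟨i, hi⟩) κ
      rw [Finset.sum_apply, Finset.sum_apply] at h
      exact h
    · intro v
      have h := congrFun hy2 (v, 1)
      rw [Finset.sum_apply] at h
      exact h
    · intro v
      have h := congrFun hy2 (v, 2)
      rw [Finset.sum_apply] at h
      exact h
    · intro v
      have h := congrFun hy2 (v, 0)
      rw [Finset.sum_apply] at h
      exact h
  have hbij : Function.Bijective Φ := by
    rw [Fintype.bijective_iff_injective_and_card]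
    refine ⟨hinj, ?_⟩
    rw [Fintype.card_prod, Fintype.card_fun, Fintype.card_fun (α := Fin k), Fintype.card_coe, hσ,
      Fintype.card_fin, pow_succ]
  obtain ⟨y, hy⟩ := hbij.2 (E, Z)
  exact ⟨ext y, by rw [← hy, hΦb]⟩

end Surj

theorem stCover (hMom : StMom) (hAv : StAvoid) : StCover := by
  classical
  intro G X L K _ _ _ _ _ _ _ _ _ _ k s σ b hb hcard hsum hdisj hK
  -- the generic vectors
  obtain ⟨V, hV⟩ := hAv (X × Fin 3) {j : G × (L × Bool) × G // j.1 ≠ j.2.2} K
    (fun j => fun i => if i.1 ∈ σ j.1.1 j.1.2.1 then nw b (σ j.1.1 j.1.2.1) i.1 *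
      ![av K σ j.1.2.2 i.1 - br b (σ j.1.1 j.1.2.1) (fun x => av K σ j.1.2.2 x * b x ^ k),
        ev K σ j.1.2.2 i.1 - br b (σ j.1.1 j.1.2.1) (fun x => ev K σ j.1.2.2 x * b x ^ k),
        1 - iv K σ j.1.2.2 i.1] i.2 else 0)
    (fun j => form_ne hb hcard hsum hdisj j.2 _ _)
    (by
      have h1 : Fintype.card {j : G × (L × Bool) × G // j.1 ≠ j.2.2} ≤
          Fintype.card G * (Fintype.card L * 2) * Fintype.card G := by
        refine (Fintype.card_subtype_le _).trans ?_
        rw [Fintype.card_prod, Fintype.card_prod, Fintype.card_prod, Fintype.card_bool]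
        exact le_of_eq (by ring)
      have h2 : Fintype.card (X × Fin 3) = Fintype.card X * 3 := by
        rw [Fintype.card_prod, Fintype.card_fin]
      rw [h2]
      exact lt_of_le_of_lt (Nat.mul_le_mul_right _ h1) hK)
  set p : X → K := fun x => V (x, 0) with hp
  set q : X → K := fun x => V (x, 1) with hq
  set c : X → K := fun x => V (x, 2) with hc
  have hD : ∀ u t v, v ≠ u →
      Del b (σ u t) (fun x => b x ^ k) p q c (iv K σ v) (av K σ v) (ev K σ v) ≠ 0 := by
    intro u t v hvu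
    have h := hV ⟨(u, t, v), fun h => hvu h.symm⟩
    intro h0
    exact h ((form_eq (w := fun x => b x ^ k) V u v t).trans h0)
  -- the functional
  obtain ⟨π, hπ⟩ : ∃ π : K →ₗ[L] L, ∀ a : L, π (algebraMap L K a) = a := by
    obtain ⟨g, hg⟩ := LinearMap.exists_leftInverse_of_injective (Algebra.linearMap L K)
      (by
        rw [LinearMap.ker_eq_bot]
        exact (algebraMap L K).injective)
    refine ⟨g, fun a => ?_⟩
    have := LinearMap.congr_fun hg a
    exact this
  have hπmul : ∀ (a : L) (z : K), π (algebraMap L K a * z) = a * π z := by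
    intro a z
    rw [← Algebra.smul_def, map_smul, smul_eq_mul]
  -- the offsets
  set γ : L × Bool → L := fun t => if t.2 then t.1 else 0 with hγ
  have hne : ∀ u t, ∃ x, x ∈ σ u t := by
    intro u t
    have : (σ u t).Nonempty := by
      rw [← Finset.card_pos, hcard]
      exact Nat.succ_pos k
    exact this
  choose x0 hx0 using hne
  set g : G → X → K := fun u x => ∑ t, if x = x0 u t then algebraMap L K (γ t) else 0 with hg
  have hgsum : ∀ u t, ∑ x ∈ σ u t, g u x = algebraMap L K (γ t) := by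
    intro u t
    rw [hg]
    simp only
    rw [Finset.sum_comm, Finset.sum_eq_single t]
    · rw [Finset.sum_ite_eq', if_pos (hx0 u t)]
    · intro t' _ ht'
      apply Finset.sum_eq_zero
      intro x hx
      rw [if_neg]
      intro h
      rw [h] at hx
      exact (Finset.disjoint_left.1 (hdisj u t' t ht')) (hx0 u t') hx
    · intro h
      exact absurd (mem_univ t) h
  set Sl : X → (G × Fin 3 → K) →ₗ[K] (Fin k → G × Fin 3 → K) × (G × Fin 3 → K) := fun x =>
    slin k (b x) (p x) (q x) (c x) (fun v => iv K σ v x) (fun v => av K σ v x)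
      (fun v => ev K σ v x) with hSl
  set F : X → (G × Fin 3 → K) → K := fun x y => b x ^ k * ∑ v, y (v, 0) with hF
  set off : X → G × Fin 3 → K := fun x κ => ![g κ.1 x, 0, 0] κ.2 with hoff
  refine ⟨fun a => (s a.1, (Sl a.1 a.2).1, (Sl a.1 a.2).2 + off a.1, π (F a.1 a.2)), ?_⟩
  rintro ⟨u, E, Z, f⟩
  -- choice of the representation
  obtain ⟨t, ht⟩ : ∃ t : L × Bool,
      π (Z (u, 0)) - γ t - t.1 * π (Z (u, 1)) - (if t.2 then 1 else 0) * π (Z (u, 2)) = f := by
    by_cases h1 : π (Z (u, 1)) = 0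
    · refine ⟨(π (Z (u, 0)) - π (Z (u, 2)) - f, true), ?_⟩
      rw [h1, hγ]
      simp only [if_true, mul_zero, sub_zero, one_mul]
      ring
    · refine ⟨((π (Z (u, 0)) - f) / π (Z (u, 1)), false), ?_⟩
      rw [hγ]
      simp only [Bool.false_eq_true, if_false, zero_mul, sub_zero]
      field_simp
      ring
  have hiv : ∀ x ∈ σ u t, iv K σ u x = 1 := fun x hx => sum_mem σ hdisj (fun _ => (1 : K)) hx
  have hav : ∀ x ∈ σ u t, av K σ u x = algebraMap L K t.1 := fun x hx =>
    sum_mem σ hdisj (fun t => algebraMap L K t.1) hx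
  have hev : ∀ x ∈ σ u t, ev K σ u x = ep K t.2 := fun x hx =>
    sum_mem σ hdisj (fun t => ep K t.2) hx
  obtain ⟨y, hy⟩ := surj hMom (hcard u t) hb p q c (iv K σ) (av K σ) (ev K σ) u
    (algebraMap L K t.1) (ep K t.2) hiv hav hev (hD u t) E (Z - ∑ x ∈ σ u t, off x)
  have hy1 := congrArg Prod.fst hy
  have hy2 := congrArg Prod.snd hy
  rw [Prod.fst_sum] at hy1
  rw [Prod.snd_sum] at hy2
  simp only at hy1 hy2
  have hinj : Function.Injective (fun x : X => (x, y x)) := fun a b h => congrArg Prod.fst h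
  refine ⟨(σ u t).map ⟨_, hinj⟩, by rw [Finset.card_map, hcard], ?_⟩
  rw [Finset.sum_map]
  simp only [Function.Embedding.coeFn_mk]
  have hFsum : ∑ x ∈ σ u t, F x (y x) = Z (u, 0) - algebraMap L K (γ t) -
      algebraMap L K t.1 * Z (u, 1) - ep K t.2 * Z (u, 2) := by
    have e0 := congrFun hy2 (u, 0)
    have e1 := congrFun hy2 (u, 1)
    have e2 := congrFun hy2 (u, 2)
    rw [Finset.sum_apply] at e0 e1 e2
    have o0 : (Z - ∑ x ∈ σ u t, off x) (u, 0) = Z (u, 0) - algebraMap L K (γ t) := by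
      rw [Pi.sub_apply, Finset.sum_apply]
      show Z (u, 0) - ∑ x ∈ σ u t, g u x = _
      rw [hgsum]
    have o1 : (Z - ∑ x ∈ σ u t, off x) (u, 1) = Z (u, 1) := by
      rw [Pi.sub_apply, Finset.sum_apply]
      show Z (u, 1) - ∑ x ∈ σ u t, 0 = _
      rw [Finset.sum_const_zero, sub_zero]
    have o2 : (Z - ∑ x ∈ σ u t, off x) (u, 2) = Z (u, 2) := by
      rw [Pi.sub_apply, Finset.sum_apply]
      show Z (u, 2) - ∑ x ∈ σ u t, 0 = _
      rw [Finset.sum_const_zero, sub_zero]
    rw [o0] at e0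
    rw [o1] at e1
    rw [o2] at e2
    rw [← e0, ← e1, ← e2, Finset.mul_sum, Finset.mul_sum, ← Finset.sum_sub_distrib,
      ← Finset.sum_sub_distrib]
    apply Finset.sum_congr rfl
    intro x hx
    show b x ^ k * ∑ v, y x (v, 0) =
      (iv K σ u x * (b x ^ k * ∑ v', y x (v', 0)) +
      av K σ u x * (b x ^ k * y x (u, 1) + p x * y x (u, 0)) +
      ev K σ u x * (b x ^ k * y x (u, 2) + q x * y x (u, 0)) +
      (1 - iv K σ u x) * (c x * y x (u, 0))) -
      algebraMap L K t.1 * (b x ^ k * y x (u, 1) + p x * y x (u, 0)) -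
      ep K t.2 * (b x ^ k * y x (u, 2) + q x * y x (u, 0))
    rw [hiv x hx, hav x hx, hev x hx]
    ring
  have hlast : ∑ x ∈ σ u t, π (F x (y x)) = f := by
    rw [← map_sum, hFsum, map_sub, map_sub, map_sub, hπ, hπmul, ← ht]
    congr 1
    unfold ep
    by_cases h : t.2 = true
    · rw [if_pos h, if_pos h, one_mul, one_mul]
    · rw [if_neg h, if_neg h, zero_mul, map_zero, zero_mul]
  ext1
  · rw [Prod.fst_sum]
    exact hsum u t
  ext1
  · rw [Prod.snd_sum, Prod.fst_sum]
    exact hy1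
  ext1
  · rw [Prod.snd_sum, Prod.snd_sum, Prod.fst_sum]
    show ∑ x ∈ σ u t, ((Sl x (y x)).2 + off x) = Z
    rw [Finset.sum_add_distrib, hy2, sub_add_cancel]
  · rw [Prod.snd_sum, Prod.snd_sum, Prod.snd_sum]
    exact hlast

end Pool.Agent.MP073f2d.Ad
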