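import Pool.Agent.Work.MP_073f2d_co.Ad.Stmts

/-!
Vanishing moments on a finite set.
-/

namespace Pool.Agent.MP073f2d.Ad

open Finset

theorem stMom : StMom := by
  intro X K _ _ b σ y hb hm x hx
  set P : Polynomial K := ∏ x' ∈ σ.erase x, (Polynomial.X - Polynomial.C (b x')) with hP
  have hmon : P.Monic := Polynomial.monic_prod_of_monic _ _ fun i _ => Polynomial.monic_X_sub_C _
  have hdeg : P.natDegree = σ.card - 1 := by
    rw [hP, Polynomial.natDegree_prod_of_monic _ _ fun i _ => Polynomial.monic_X_sub_C _]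
    simp [Finset.card_erase_of_mem hx]
  have hPx : P.eval (b x) = ∏ x' ∈ σ.erase x, (b x - b x') := by
    rw [hP, Polynomial.eval_prod]
    simp
  have hne : P.eval (b x) ≠ 0 := by
    rw [hPx]
    refine Finset.prod_ne_zero_iff.mpr fun i hi => ?_
    rw [sub_ne_zero]
    intro h
    exact (Finset.mem_erase.mp hi).1 (hb h).symm
  have h1 : ∑ x' ∈ σ, P.eval (b x') * y x' = P.eval (b x) * y x := by
    refine Finset.sum_eq_single_of_mem x hx fun x' hx' hxx => ?_
    have : P.eval (b x') = 0 := by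
      rw [hP, Polynomial.eval_prod]
      refine Finset.prod_eq_zero (Finset.mem_erase.mpr ⟨hxx, hx'⟩) ?_
      simp
    rw [this, zero_mul]
  have h2 : ∑ x' ∈ σ, P.eval (b x') * y x' =
      ∑ i ∈ Finset.range (P.natDegree + 1), P.coeff i * ∑ x' ∈ σ, b x' ^ i * y x' := by
    simp_rw [Polynomial.eval_eq_sum_range, Finset.sum_mul, Finset.mul_sum]
    rw [Finset.sum_comm]
    refine Finset.sum_congr rfl fun i _ => Finset.sum_congr rfl fun x' _ => by ring
  have h3 : ∑ i ∈ Finset.range P.natDegree, P.coeff i * ∑ x' ∈ σ, b x' ^ i * y x' = 0 := by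
    refine Finset.sum_eq_zero fun i hi => ?_
    rw [hm i (by rw [← hdeg]; exact Finset.mem_range.mp hi), mul_zero]
  rw [Finset.sum_range_succ, h3, zero_add, hmon.coeff_natDegree, one_mul, hdeg] at h2
  rw [← h2, h1, hPx]
  rw [hPx] at hne
  rw [inv_mul_cancel_left₀ hne]

end Pool.Agent.MP073f2d.Ad
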