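import Pool.Agent.Work.MP_073f2d_co.Ad.Stmts

/-!
# MP_073f2d_co, project Ad: the parameters
-/

namespace Pool.Agent.MP073f2d.Ad

namespace NumX

/-- The binomial coefficients. -/
theorem part1 (k q c : ℕ) (hk : 1 ≤ k) (h : 2 * k * (c + k) ≤ q) :
    q ^ k ≤ (2 * k.factorial) * (q - c).choose k := by
  have hq : 0 < q := by
    have : 0 < 2 * k * (c + k) := by positivity
    omega
  have hck : c + k ≤ q := by nlinarith
  set y := q - c + 1 - k with hy
  have h1 : 2 * k.factorial * (q - c).choose k = 2 * (q - c).descFactorial k := by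
    rw [Nat.descFactorial_eq_factorial_mul_choose]
    ring
  rw [h1]
  refine le_trans ?_ (Nat.mul_le_mul_left 2 (Nat.pow_sub_le_descFactorial (q - c) k))
  rw [← hy]
  have hy' : (y : ℝ) = q - (c + k - 1) := by
    have h0 : y + (c + k) = q + 1 := by omega
    have h2 : (y : ℝ) + (c + k) = q + 1 := by exact_mod_cast h0
    linarith
  have hqr : (0 : ℝ) < q := by exact_mod_cast hq
  have hb := one_add_mul_sub_le_pow (a := (y : ℝ) / q) (by
    have : (0 : ℝ) ≤ y / q := by positivity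
    linarith) k
  have h2 : (y : ℝ) / q - 1 = -((c + k - 1) / q) := by
    rw [hy']
    field_simp
    ring
  have h3 : (k : ℝ) * ((c + k - 1) / q) ≤ 1 / 2 := by
    rw [mul_div_assoc', div_le_iff₀ hqr]
    have h4 : (2 * k * (c + k) : ℝ) ≤ q := by exact_mod_cast h
    have h5 : (0 : ℝ) ≤ k := Nat.cast_nonneg k
    nlinarith
  have h6 : 1 / 2 ≤ ((y : ℝ) / q) ^ k := by
    rw [h2] at hb
    linarith
  rw [div_pow, le_div_iff₀ (by positivity)] at h6
  have h7 : (q : ℝ) ^ k ≤ 2 * (y : ℝ) ^ k := by linarith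
  exact_mod_cast h7

/-- The exponential estimate. -/
theorem part2 (n Q s : ℕ) (hn : 1 ≤ n) (hQ : 1 ≤ Q) (hs : s ≤ Q) :
    ((2 : ℝ) ^ s) * (1 - 1 / n) ^ (n * (3 * Q)) < (1 / 2) ^ (2 * Q) := by
  have h1 : (1 - 1 / (n : ℝ)) ^ n ≤ Real.exp (-1) :=
    Real.one_sub_div_pow_le_exp_neg (by exact_mod_cast hn)
  have h0 : (0 : ℝ) ≤ 1 - 1 / n := by
    have : (1 : ℝ) / n ≤ 1 := by
      rw [div_le_one (by positivity)]
      exact_mod_cast hn
    linarith
  have h2 : Real.exp (-1) < 1 / 2 := by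
    rw [Real.exp_neg, inv_eq_one_div]
    have := Real.exp_one_gt_d9
    exact one_div_lt_one_div_of_lt (by norm_num) (by linarith)
  have h3 : ((1 - 1 / (n : ℝ)) ^ n) ^ (3 * Q) < (1 / 2) ^ (3 * Q) :=
    pow_lt_pow_left₀ (h1.trans_lt h2) (pow_nonneg h0 n) (by omega)
  rw [pow_mul]
  calc (2 : ℝ) ^ s * ((1 - 1 / (n : ℝ)) ^ n) ^ (3 * Q)
      < 2 ^ s * (1 / 2) ^ (3 * Q) := by
        exact mul_lt_mul_of_pos_left h3 (by positivity)
    _ ≤ 2 ^ Q * (1 / 2) ^ (3 * Q) := by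
        refine mul_le_mul_of_nonneg_right ?_ (by positivity)
        exact pow_le_pow_right₀ (by norm_num) hs
    _ = (1 / 2) ^ (2 * Q) := by
        have : 3 * Q = Q + 2 * Q := by ring
        rw [this, pow_add, ← mul_assoc, ← mul_pow]
        norm_num

/-- The density. -/
theorem part3 (r q M A : ℕ) (hq : 0 < q) (h1 : 4 * (r * M) ≤ 3 * q) (h2 : 3 * q ≤ A) (k : ℕ)
    (hr : r = k + 1) : (q + M) ^ (k + 1) ≤ A * q ^ k := by
  have hqr : (0 : ℝ) < q := by exact_mod_cast hq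
  have h3 : (1 + (M : ℝ) / q) ^ (k + 1) ≤ 3 := by
    have h4 : (1 + (M : ℝ) / q) ≤ Real.exp ((M : ℝ) / q) := by
      have := Real.add_one_le_exp ((M : ℝ) / q)
      linarith
    have h5 : (1 + (M : ℝ) / q) ^ (k + 1) ≤ Real.exp ((M : ℝ) / q) ^ (k + 1) :=
      pow_le_pow_left₀ (by positivity) h4 _
    have h6 : Real.exp ((M : ℝ) / q) ^ (k + 1) = Real.exp (((k + 1 : ℕ) : ℝ) * (M / q)) := by
      rw [← Real.exp_nat_mul]
    rw [h6] at h5
    refine h5.trans ?_
    have h7 : ((k + 1 : ℕ) : ℝ) * (M / q) ≤ 1 := by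
      rw [mul_div_assoc', div_le_one hqr]
      have h8 : (4 * (r * M) : ℝ) ≤ 3 * q := by exact_mod_cast h1
      rw [hr] at h8
      nlinarith
    refine (Real.exp_le_exp.2 h7).trans ?_
    have := Real.exp_one_lt_d9
    linarith
  have h9 : ((q : ℝ) + M) ^ (k + 1) = (q : ℝ) ^ (k + 1) * (1 + (M : ℝ) / q) ^ (k + 1) := by
    rw [← mul_pow]
    congr 1
    field_simp
  have h10 : ((q : ℝ) + M) ^ (k + 1) ≤ A * (q : ℝ) ^ k := by
    rw [h9]
    have h11 : (3 * q : ℝ) ≤ A := by exact_mod_cast h2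
    calc (q : ℝ) ^ (k + 1) * (1 + (M : ℝ) / q) ^ (k + 1) ≤ (q : ℝ) ^ (k + 1) * 3 :=
          mul_le_mul_of_nonneg_left h3 (by positivity)
      _ = (3 * q) * (q : ℝ) ^ k := by ring
      _ ≤ A * (q : ℝ) ^ k := mul_le_mul_of_nonneg_right h11 (by positivity)
  exact_mod_cast h10

theorem two_mul_le (n : ℕ) (h : 1 ≤ n) : 2 * n ≤ 2 ^ n := by
  obtain ⟨m, rfl⟩ : ∃ m, n = m + 1 := ⟨n - 1, by omega⟩
  have := Nat.lt_two_pow_self (n := m)
  rw [pow_succ]
  omega

end NumX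

open NumX in
/-- The parameters. -/
theorem stNum : StNum := by
  intro k hk
  set c0 := Nat.clog 2 (k + 1).factorial with hc0
  set n := k + 4 + c0 with hn
  set m := 2 * n with hm
  have hr2 : 2 ≤ (k + 1).factorial := by
    calc 2 = (2).factorial := rfl
      _ ≤ (k + 1).factorial := Nat.factorial_le (by omega)
  have hlo : (k + 1).factorial ≤ 2 ^ c0 := Nat.le_pow_clog (by norm_num) _
  have hhi : 2 ^ c0 ≤ 2 * (k + 1).factorial := by
    have h1 := Nat.pow_pred_clog_lt_self (b := 2) (by norm_num) (x := (k + 1).factorial) (by omega)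
    rw [← hc0] at h1
    have h2 : c0 ≠ 0 := by
      have := Nat.clog_pos (b := 2) (by norm_num) (n := (k + 1).factorial) (by omega)
      omega
    obtain ⟨j, hj⟩ : ∃ j, c0 = j + 1 := ⟨c0 - 1, by omega⟩
    rw [hj] at h1 ⊢
    rw [Nat.pred_succ] at h1
    rw [pow_succ]
    omega
  have hQ : k * (4 + c0 + m) ≤ 2 ^ m := by
    have h1 := two_mul_le n (by omega)
    have h2 : 2 ^ m = 2 ^ n * 2 ^ n := by rw [hm, two_mul, pow_add]
    have h3 : k ≤ n := by omega
    have h4 : 4 + c0 + m ≤ 3 * n := by omega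
    calc k * (4 + c0 + m) ≤ n * (3 * n) := Nat.mul_le_mul h3 h4
      _ ≤ (2 * n) * (2 * n) := by nlinarith
      _ ≤ 2 ^ n * 2 ^ n := Nat.mul_le_mul h1 h1
      _ = 2 ^ m := h2.symm
  have hQ2 : 2 ≤ 2 ^ m := by
    calc 2 = 2 ^ 1 := by norm_num
      _ ≤ 2 ^ m := Nat.pow_le_pow_right (by norm_num) (by omega)
  set Q := 2 ^ m with hQdef
  have hq : 2 ^ (4 + c0 + m) = 16 * 2 ^ c0 * Q := by
    have h16 : (2 : ℕ) ^ 4 = 16 := by norm_num
    rw [pow_add, pow_add, h16]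
  have hkk : k * k ≤ (k + 1).factorial := by
    have h1 : k ≤ k.factorial := Nat.self_le_factorial k
    rw [Nat.factorial_succ]
    exact Nat.mul_le_mul (by omega) h1
  refine ⟨m, 4 + c0 + m, 12 * k.factorial * Q, by omega, by omega, ?_, ?_, ?_⟩
  · intro c hc
    refine part1 k _ c hk ?_
    rw [hq]
    have h1 : 2 * k * (c + k) ≤ 2 * k * (k * (2 * Q) + k) :=
      Nat.mul_le_mul_left _ (Nat.add_le_add_right hc k)
    have h2 : 2 * k * (k * (2 * Q) + k) = (k * k) * (4 * Q + 2) := by ring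
    have h3 : 4 * Q + 2 ≤ 16 * Q := by omega
    calc 2 * k * (c + k) ≤ (k * k) * (4 * Q + 2) := by rw [← h2]; exact h1
      _ ≤ (k + 1).factorial * (16 * Q) := Nat.mul_le_mul hkk h3
      _ ≤ 2 ^ c0 * (16 * Q) := Nat.mul_le_mul_right _ hlo
      _ = 16 * 2 ^ c0 * Q := by ring
  · have h1 := part2 (2 * (2 * k.factorial)) Q ((4 + c0 + m) * k) (by
      have := Nat.factorial_pos k
      omega) (by omega) (by rw [mul_comm]; exact hQ)
    have h2 : 2 * (2 * k.factorial) * (3 * Q) = 12 * k.factorial * Q := by ring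
    rw [h2] at h1
    have h3 : (((2 ^ (4 + c0 + m)) ^ k : ℕ) : ℝ) = 2 ^ ((4 + c0 + m) * k) := by
      push_cast
      rw [← pow_mul]
    rw [h3]
    have h4 : ((2 * (2 * k.factorial) : ℕ) : ℝ) = 2 * ((2 * k.factorial : ℕ) : ℝ) := by
      push_cast
      ring
    rw [h4] at h1
    exact h1
  · have h1 := part3 (k + 1) (2 ^ (4 + c0 + m)) (12 * k.factorial * Q)
      (96 * ((k + 1).factorial * Q)) (by positivity) ?_ ?_ k rfl
    · refine h1.trans (le_of_eq ?_)
      ring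
    · rw [hq]
      have h2 : 4 * ((k + 1) * (12 * k.factorial * Q)) = 48 * (k + 1).factorial * Q := by
        rw [Nat.factorial_succ]
        ring
      rw [h2]
      calc 48 * (k + 1).factorial * Q ≤ 48 * 2 ^ c0 * Q :=
            Nat.mul_le_mul_right _ (Nat.mul_le_mul_left _ hlo)
        _ = 3 * (16 * 2 ^ c0 * Q) := by ring
    · rw [hq]
      calc 3 * (16 * 2 ^ c0 * Q) = 48 * Q * 2 ^ c0 := by ring
        _ ≤ 48 * Q * (2 * (k + 1).factorial) := Nat.mul_le_mul_left _ hhi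
        _ = 96 * ((k + 1).factorial * Q) := by ring

end Pool.Agent.MP073f2d.Ad
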