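import Pool.Agent.Work.MP_073f2d_co.Ad.Stmts

/-!
# The potential argument
-/

namespace Pool.Agent.MP073f2d.Ad

open Finset

namespace Pot

variable {G Y : Type} [AddCommGroup G] [Fintype G] [DecidableEq G] [Fintype Y] [DecidableEq Y]

/-- `n` disjoint representations of `u`. -/
def Rep (s : Y → G) (k : ℕ) {M : ℕ} (ζ : Fin M → G) (u : G) (n : ℕ) (ρ : Fin n → Finset Y)
    (z : Fin n → Fin M) : Prop :=
  (∀ i, (ρ i).card = k) ∧ (∀ i j, i ≠ j → Disjoint (ρ i) (ρ j)) ∧
      Function.Injective z ∧ ∀ i, ∑ y ∈ ρ i, s y + ζ (z i) = u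

omit [Fintype G] [DecidableEq G] [Fintype Y] [DecidableEq Y] in
lemma rep_cast {s : Y → G} {k M n : ℕ} {ζ : Fin M → G} {u g : G} {ρ : Fin n → Finset Y}
    {z : Fin n → Fin M} (h : Rep s k ζ u n ρ z) :
    Rep s k (Fin.snoc (α := fun _ => G) ζ g) u n ρ (fun i => (z i).castSucc) := by
  obtain ⟨h1, h2, h3, h4⟩ := h
  refine ⟨h1, h2, ?_, ?_⟩
  · intro i j hij
    exact h3 (Fin.castSucc_injective _ hij)
  · intro i
    rw [Fin.snoc_castSucc]
    exact h4 i

omit [Fintype G] [DecidableEq G] [Fintype Y] [DecidableEq Y] in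
lemma rep_snoc {s : Y → G} {k M n : ℕ} {ζ : Fin M → G} {u g : G} {ρ : Fin n → Finset Y}
    {z : Fin n → Fin M} (h : Rep s k ζ u n ρ z) {R : Finset Y} (hR : R.card = k)
    (hd : ∀ i, Disjoint (ρ i) R) (hs : ∑ y ∈ R, s y + g = u) :
    Rep s k (Fin.snoc (α := fun _ => G) ζ g) u (n + 1) (Fin.snoc (α := fun _ => Finset Y) ρ R)
      (Fin.snoc (α := fun _ => Fin (M + 1)) (fun i => (z i).castSucc) (Fin.last M)) := by
  obtain ⟨h1, h2, h3, h4⟩ := h
  refine ⟨?_, ?_, ?_, ?_⟩
  · intro i
    refine Fin.lastCases ?_ (fun i => ?_) i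
    · rw [Fin.snoc_last]; exact hR
    · rw [Fin.snoc_castSucc]; exact h1 i
  · intro i j
    refine Fin.lastCases ?_ (fun i => ?_) i
    · refine Fin.lastCases ?_ (fun j => ?_) j
      · intro h; exact absurd rfl h
      · intro _
        rw [Fin.snoc_last, Fin.snoc_castSucc]
        exact (hd j).symm
    · refine Fin.lastCases ?_ (fun j => ?_) j
      · intro _
        rw [Fin.snoc_last, Fin.snoc_castSucc]
        exact hd i
      · intro hij
        rw [Fin.snoc_castSucc, Fin.snoc_castSucc]
        exact h2 i j (fun h => hij (by rw [h]))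
  · intro i j
    refine Fin.lastCases ?_ (fun i => ?_) i
    · refine Fin.lastCases ?_ (fun j => ?_) j
      · intro _; rfl
      · rw [Fin.snoc_last, Fin.snoc_castSucc]
        intro h
        exact absurd h.symm (Fin.castSucc_lt_last _).ne
    · refine Fin.lastCases ?_ (fun j => ?_) j
      · rw [Fin.snoc_last, Fin.snoc_castSucc]
        intro h
        exact absurd h (Fin.castSucc_lt_last _).ne
      · rw [Fin.snoc_castSucc, Fin.snoc_castSucc]
        intro h
        rw [h3 (Fin.castSucc_injective _ h)]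
  · intro i
    refine Fin.lastCases ?_ (fun i => ?_) i
    · rw [Fin.snoc_last, Fin.snoc_last, Fin.snoc_last]; exact hs
    · rw [Fin.snoc_castSucc, Fin.snoc_castSucc, Fin.snoc_castSucc]; exact h4 i

/-- The weight. -/
noncomputable def wt (N n : ℕ) : ℝ := if n < N then (1 / 2) ^ n else 0

lemma wt_le (N n : ℕ) : wt N n ≤ (1 / 2) ^ n := by
  unfold wt
  split_ifs
  · exact le_rfl
  · positivity

lemma wt_nonneg (N n : ℕ) : 0 ≤ wt N n := by
  unfold wt
  split_ifs
  · positivity
  · exact le_rfl

/-- One step for one `u`. -/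
lemma step_one {G : Type} [Fintype G] [DecidableEq G] (N n h : ℕ) (hh : 1 ≤ h) (S : Finset G)
    (hn : n < N) (hS : Fintype.card G ≤ h * S.card) :
    ∑ g : G, wt N (if g ∈ S then n + 1 else n) ≤
      (Fintype.card G : ℝ) * (1 - 1 / (2 * h)) * wt N n := by
  have hh' : (1 : ℝ) ≤ h := by exact_mod_cast hh
  have h1 : ∀ g : G, wt N (if g ∈ S then n + 1 else n) ≤
      (1 / 2) ^ n - (if g ∈ S then (1 / 2) ^ (n + 1) else 0 : ℝ) := by
    intro g
    by_cases hg : g ∈ S
    · rw [if_pos hg, if_pos hg]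
      refine (wt_le N (n + 1)).trans (le_of_eq ?_)
      rw [pow_succ]; ring
    · rw [if_neg hg, if_neg hg, sub_zero]
      exact wt_le N n
  refine (Finset.sum_le_sum fun g _ => h1 g).trans ?_
  rw [Finset.sum_sub_distrib, Finset.sum_const, Finset.card_univ, nsmul_eq_mul,
    Finset.sum_ite_mem, Finset.univ_inter, Finset.sum_const, nsmul_eq_mul]
  have h2 : wt N n = (1 / 2) ^ n := by unfold wt; rw [if_pos hn]
  rw [h2]
  have h3 : (Fintype.card G : ℝ) / h ≤ S.card := by
    rw [div_le_iff₀ (by linarith)]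
    rw [mul_comm]
    exact_mod_cast hS
  have h4 : (0 : ℝ) < (1 / 2) ^ n := by positivity
  have h5 : (Fintype.card G : ℝ) * (1 - 1 / (2 * h)) * (1 / 2) ^ n =
      (Fintype.card G : ℝ) * (1 / 2) ^ n - (Fintype.card G : ℝ) / h * (1 / 2) ^ (n + 1) := by
    rw [pow_succ]
    field_simp
  rw [h5]
  gcongr

lemma main (s : Y → G) (k N h : ℕ)
    (hinj : ∀ A B : Finset Y, A.card = k → B.card = k → ∑ y ∈ A, s y = ∑ y ∈ B, s y → A = B)
    (hh : 1 ≤ h) (hC : ∀ a ≤ k * N, Fintype.card G ≤ h * (Fintype.card Y - a).choose k) (M : ℕ) :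
    ∃ (ζ : Fin M → G) (n : G → ℕ), (∀ u, n u ≤ N) ∧
      (∀ u, ∃ (ρ : Fin (n u) → Finset Y) (z : Fin (n u) → Fin M), Rep s k ζ u (n u) ρ z) ∧
      ∑ u, wt N (n u) ≤ (Fintype.card G : ℝ) * (1 - 1 / (2 * h)) ^ M := by
  induction M with
  | zero =>
    refine ⟨fun i => 0, fun _ => 0, fun u => Nat.zero_le _, ?_, ?_⟩
    · intro u
      exact ⟨fun i => ∅, fun i => i, fun i => i.elim0, fun i => i.elim0, fun i => i.elim0,
        fun i => i.elim0⟩
    · rw [pow_zero, mul_one]
      calc ∑ u : G, wt N 0 ≤ ∑ u : G, (1 : ℝ) :=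
            Finset.sum_le_sum fun u _ => by simpa using wt_le N 0
        _ = Fintype.card G := by simp
  | succ M ih =>
    obtain ⟨ζ, n, hn, hrep, hsum⟩ := ih
    choose ρ z hρ using hrep
    -- the successful labels
    classical
    let S : G → Finset G := fun u => Finset.univ.filter fun g =>
      ∃ R : Finset Y, R.card = k ∧ (∀ i, Disjoint (ρ u i) R) ∧ ∑ y ∈ R, s y + g = u
    have hS : ∀ u, Fintype.card G ≤ h * (S u).card := by
      intro u
      set A : Finset Y := Finset.univ.biUnion (ρ u) with hA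
      have hAc : A.card = k * n u := by
        rw [hA, Finset.card_biUnion (fun i _ j _ hij => (hρ u).2.1 i j hij),
          Finset.sum_congr rfl (fun i _ => (hρ u).1 i)]
        simp [mul_comm]
      have h1 : (Finset.powersetCard k Aᶜ).card ≤ (S u).card := by
        apply Finset.card_le_card_of_injOn (fun R => u - ∑ y ∈ R, s y)
        · intro R hR
          rw [Finset.mem_coe, Finset.mem_powersetCard] at hR
          rw [Finset.mem_coe, Finset.mem_filter]
          refine ⟨Finset.mem_univ _, R, hR.2, ?_, ?_⟩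
          · intro i
            rw [Finset.disjoint_left]
            intro y hy hyR
            have := hR.1 hyR
            rw [Finset.mem_compl] at this
            exact this (Finset.mem_biUnion.2 ⟨i, Finset.mem_univ _, hy⟩)
          · show ∑ y ∈ R, s y + (u - ∑ y ∈ R, s y) = u
            abel
        · intro R hR R' hR' hRR
          rw [Finset.mem_coe, Finset.mem_powersetCard] at hR hR'
          apply hinj R R' hR.2 hR'.2
          exact sub_right_injective hRR
      rw [Finset.card_powersetCard, Finset.card_compl, hAc] at h1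
      calc Fintype.card G ≤ h * (Fintype.card Y - k * n u).choose k :=
            hC _ (Nat.mul_le_mul_left k (hn u))
        _ ≤ h * (S u).card := Nat.mul_le_mul_left h h1
    let n' : G → G → ℕ := fun g u => if n u < N ∧ g ∈ S u then n u + 1 else n u
    have havg : ∑ g : G, ∑ u : G, wt N (n' g u) ≤
        ∑ g : G, (1 - 1 / (2 * (h : ℝ))) * ∑ u, wt N (n u) := by
      rw [Finset.sum_comm, Finset.sum_const, Finset.card_univ, nsmul_eq_mul, ← mul_assoc,
        Finset.mul_sum]
      apply Finset.sum_le_sum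
      intro u _
      by_cases hu : n u < N
      · have h1 := step_one N (n u) h hh (S u) hu (hS u)
        refine le_trans (le_of_eq ?_) h1
        apply Finset.sum_congr rfl
        intro g _
        simp only [n', hu, true_and]
      · have h1 : wt N (n u) = 0 := by unfold wt; rw [if_neg hu]
        rw [h1, mul_zero]
        apply le_of_eq
        apply Finset.sum_eq_zero
        intro g _
        simp only [n', hu, false_and, if_false]
        exact h1
    obtain ⟨g, -, hg⟩ := Finset.exists_le_of_sum_le ⟨0, Finset.mem_univ _⟩ havg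
    refine ⟨Fin.snoc (α := fun _ => G) ζ g, n' g, ?_, ?_, ?_⟩
    · intro u
      simp only [n']
      split_ifs with h1
      · omega
      · exact hn u
    · intro u
      by_cases h1 : n u < N ∧ g ∈ S u
      · have h2 : n' g u = n u + 1 := by simp only [n', h1, and_self, if_true]
        rw [h2]
        obtain ⟨R, hR1, hR2, hR3⟩ := (Finset.mem_filter.1 h1.2).2
        exact ⟨_, _, rep_snoc (hρ u) hR1 hR2 hR3⟩
      · have h2 : n' g u = n u := by simp only [n', h1, if_false]
        rw [h2]
        exact ⟨_, _, rep_cast (hρ u)⟩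
    · refine hg.trans ?_
      have hh' : (1 : ℝ) ≤ h := by exact_mod_cast hh
      have h3 : 0 ≤ 1 - 1 / (2 * (h : ℝ)) := by
        rw [sub_nonneg, div_le_one (by positivity)]
        linarith
      calc (1 - 1 / (2 * (h : ℝ))) * ∑ u, wt N (n u) ≤
          (1 - 1 / (2 * (h : ℝ))) * ((Fintype.card G : ℝ) * (1 - 1 / (2 * h)) ^ M) := by gcongr
        _ = _ := by rw [pow_succ]; ring

end Pot

open Pot in
/-- The potential argument. -/
theorem stPot : StPot := by
  intro G Y _ _ _ _ _ s k N h M hinj hh hC hlt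
  obtain ⟨ζ, n, hn, hrep, hsum⟩ := main s k N h hinj hh hC M
  have hnN : ∀ u, n u = N := by
    intro u
    by_contra hne
    have hu : n u < N := lt_of_le_of_ne (hn u) hne
    have h1 : wt N (n u) ≤ ∑ u, wt N (n u) :=
      Finset.single_le_sum (f := fun u => wt N (n u)) (fun u _ => wt_nonneg N (n u))
        (Finset.mem_univ u)
    have h2 : (1 / 2 : ℝ) ^ N ≤ wt N (n u) := by
      unfold wt
      rw [if_pos hu]
      exact pow_le_pow_of_le_one (by norm_num) (by norm_num) hu.le
    linarith
  refine ⟨ζ, fun u => ?_⟩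
  have h1 := hrep u
  rw [hnN u] at h1
  exact h1

end Pool.Agent.MP073f2d.Ad
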