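import Pool.Agent.Work.MP_073f2d_co.Blow
import Pool.Agent.Work.MP_073f2d_co.Ad.Cover2
import Pool.Agent.Work.MP_073f2d_co.Ad.Mom
import Pool.Agent.Work.MP_073f2d_co.Ad.Avoid
import Pool.Agent.Work.MP_073f2d_co.Ad.BCH
import Pool.Agent.Work.MP_073f2d_co.Ad.Pot
import Pool.Agent.Work.MP_073f2d_co.Ad.Num

/-!
# MP_073f2d_co, project Ad: the final assembly, `f r ≤ 300` for every `r ≥ 2`
-/

namespace Pool.Agent.MP073f2d.Ad

open Finset N8b55e67f
open scoped ENNReal

/-- The start system: every `u` has `2 |L|` disjoint representations by `k + 1` labels. -/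
theorem start (k : ℕ) (hk : 1 ≤ k) : ∃ (m a M : ℕ), m ≠ 0 ∧ a ≠ 0 ∧
    (2 ^ a + M) ^ (k + 1) ≤ 96 * ((k + 1).factorial * (2 ^ a) ^ k * 2 ^ m) ∧
    ∃ (s : GaloisField 2 a ⊕ Fin M → (Fin k → GaloisField 2 a))
      (σ : (Fin k → GaloisField 2 a) → GaloisField 2 m × Bool →
        Finset (GaloisField 2 a ⊕ Fin M)),
      (∀ u t, (σ u t).card = k + 1) ∧ (∀ u t, ∑ x ∈ σ u t, s x = u) ∧
      (∀ u t t', t ≠ t' → Disjoint (σ u t) (σ u t')) := by
  classical
  obtain ⟨m, a, M, hm, ha, h1, h2, h3⟩ := stNum k hk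
  refine ⟨m, a, M, hm, ha, h3, ?_⟩
  have : Fintype (GaloisField 2 a) := Fintype.ofFinite _
  have : Fintype (GaloisField 2 m) := Fintype.ofFinite _
  have hF : Fintype.card (GaloisField 2 a) = 2 ^ a := by
    rw [← Nat.card_eq_fintype_card, GaloisField.card 2 a ha]
  have hL : Fintype.card (GaloisField 2 m) = 2 ^ m := by
    rw [← Nat.card_eq_fintype_card, GaloisField.card 2 m hm]
  have hG : Fintype.card (Fin k → GaloisField 2 a) = (2 ^ a) ^ k := by
    rw [Fintype.card_fun, Fintype.card_fin, hF]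
  set s0 : GaloisField 2 a → (Fin k → GaloisField 2 a) := fun x i => x ^ (2 * (i : ℕ) + 1) with hs0
  obtain ⟨ζ, hζ⟩ := stPot (Fin k → GaloisField 2 a) (GaloisField 2 a) s0 k (2 * 2 ^ m)
    (2 * k.factorial) M
    (by
      intro A B hA hB hAB
      refine stBCH (GaloisField 2 a) k A B hA hB ?_
      intro i
      have := congrFun hAB i
      rw [Finset.sum_apply, Finset.sum_apply] at this
      exact this)
    (by
      have := Nat.factorial_pos k
      omega)
    (by
      intro c hc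
      rw [hG, hF]
      exact h1 c hc)
    (by
      rw [hG]
      exact h2)
  choose ρ z hρ hdis hz hsum using hζ
  have e : GaloisField 2 m × Bool ≃ Fin (2 * 2 ^ m) := by
    apply Fintype.equivOfCardEq
    rw [Fintype.card_prod, Fintype.card_bool, hL, Fintype.card_fin, mul_comm]
  refine ⟨Sum.elim s0 ζ, fun u t => (ρ u (e t)).disjSum {z u (e t)}, ?_, ?_, ?_⟩
  · intro u t
    rw [Finset.card_disjSum, hρ, Finset.card_singleton]
  · intro u t
    rw [Finset.sum_disjSum, Finset.sum_singleton]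
    exact hsum u (e t)
  · intro u t t' htt'
    have hne : e t ≠ e t' := fun h => htt' (e.injective h)
    rw [Finset.disjoint_left]
    intro x hx hx'
    rw [Finset.mem_disjSum] at hx hx'
    rcases hx with ⟨y, hy, rfl⟩ | ⟨y, hy, rfl⟩
    · rcases hx' with ⟨y', hy', h⟩ | ⟨y', hy', h⟩
      · rw [Sum.inl.injEq] at h
        rw [h] at hy'
        exact Finset.disjoint_left.1 (hdis u _ _ hne) hy hy'
      · exact absurd h (by simp)
    · rcases hx' with ⟨y', hy', h⟩ | ⟨y', hy', h⟩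
      · exact absurd h (by simp)
      · rw [Sum.inr.injEq] at h
        rw [Finset.mem_singleton] at hy hy'
        exact hne (hz u (by rw [← hy, ← h, hy']))

/-- The numeric end. -/
theorem num_end (k X B g q n : ℕ) (hn : n = X * B) (hnk : (k + 1) * (k + 1) ≤ n) (hg : 0 < g)
    (hq : 0 < q) (hB : 0 < B)
    (h3 : X ^ (k + 1) ≤ 96 * ((k + 1).factorial * g * q)) :
    (((n + (k + 1)).choose (k + 1) : ℕ) : ℝ≥0∞) / ((g * (B ^ k * (B * q)) : ℕ) : ℝ≥0∞) ≤ 300 := by
  have hn0 : 0 < n := lt_of_lt_of_le (by positivity) hnk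
  have hWpos : 0 < g * (B ^ k * (B * q)) := by positivity
  have key : (n + (k + 1)).choose (k + 1) ≤ 300 * (g * (B ^ k * (B * q))) := by
    have h1 : (((n + (k + 1)).choose (k + 1) : ℕ) : ℝ) ≤
        ((n + (k + 1) : ℕ) : ℝ) ^ (k + 1) / ((k + 1).factorial : ℝ) :=
      Nat.choose_le_pow_div (k + 1) (n + (k + 1))
    have hfac : (0 : ℝ) < ((k + 1).factorial : ℝ) := by exact_mod_cast Nat.factorial_pos (k + 1)
    have hnR : (0 : ℝ) < (n : ℝ) := by exact_mod_cast hn0
    have h2 : ((n + (k + 1) : ℕ) : ℝ) ^ (k + 1) ≤ 3 * (n : ℝ) ^ (k + 1) := by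
      have e1 : ((n + (k + 1) : ℕ) : ℝ) = n * (1 + (k + 1) / n) := by
        push_cast
        field_simp
      have e2 : (1 : ℝ) + (k + 1) / n ≤ Real.exp ((k + 1) / n) := by
        have := Real.add_one_le_exp (((k : ℝ) + 1) / n)
        linarith
      have e3 : (0 : ℝ) ≤ 1 + ((k : ℝ) + 1) / n := by positivity
      have e4 : ((1 : ℝ) + (k + 1) / n) ^ (k + 1) ≤ 3 := by
        calc ((1 : ℝ) + (k + 1) / n) ^ (k + 1) ≤ (Real.exp ((k + 1) / n)) ^ (k + 1) :=
              pow_le_pow_left₀ e3 e2 _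
          _ = Real.exp ((k + 1 : ℕ) * (((k : ℝ) + 1) / n)) := by rw [Real.exp_nat_mul]
          _ ≤ Real.exp 1 := by
              apply Real.exp_le_exp.2
              rw [← mul_div_assoc, div_le_one hnR]
              exact_mod_cast hnk
          _ ≤ 3 := Real.exp_one_lt_three.le
      rw [e1, mul_pow, mul_comm (3 : ℝ)]
      exact mul_le_mul_of_nonneg_left e4 (by positivity)
    have h4 : ((X : ℝ)) ^ (k + 1) ≤ 96 * (((k + 1).factorial : ℝ) * g * q) := by
      exact_mod_cast h3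
    have h5 : (n : ℝ) ^ (k + 1) ≤ 96 * (((k + 1).factorial : ℝ) * g * q) * (B : ℝ) ^ (k + 1) := by
      rw [hn, Nat.cast_mul, mul_pow]
      exact mul_le_mul_of_nonneg_right h4 (by positivity)
    have h6 : (((n + (k + 1)).choose (k + 1) : ℕ) : ℝ) ≤ 300 * (g * (B ^ k * (B * q))) := by
      refine h1.trans ?_
      rw [div_le_iff₀ hfac]
      calc ((n + (k + 1) : ℕ) : ℝ) ^ (k + 1) ≤ 3 * (n : ℝ) ^ (k + 1) := h2
        _ ≤ 3 * (96 * (((k + 1).factorial : ℝ) * g * q) * (B : ℝ) ^ (k + 1)) := by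
            linarith
        _ = 288 * (g * (B ^ k * (B * q))) * ((k + 1).factorial : ℝ) := by
            rw [pow_succ]
            ring
        _ ≤ 300 * (g * (B ^ k * (B * q))) * ((k + 1).factorial : ℝ) := by
            have : (0 : ℝ) ≤ (g * (B ^ k * (B * q))) * ((k + 1).factorial : ℝ) := by positivity
            nlinarith
    exact_mod_cast h6
  have hW0 : ((g * (B ^ k * (B * q)) : ℕ) : ℝ≥0∞) ≠ 0 := by
    exact_mod_cast hWpos.ne'
  rw [ENNReal.div_le_iff hW0 (ENNReal.natCast_ne_top _)]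
  exact_mod_cast key

theorem fin_aux (k m a M N : ℕ) (hm : m ≠ 0) (ha : a ≠ 0)
    (h3 : (2 ^ a + M) ^ (k + 1) ≤ 96 * ((k + 1).factorial * (2 ^ a) ^ k * 2 ^ m))
    (s : GaloisField 2 a ⊕ Fin M → (Fin k → GaloisField 2 a))
    (σ : (Fin k → GaloisField 2 a) → GaloisField 2 m × Bool →
        Finset (GaloisField 2 a ⊕ Fin M))
    (hcard : ∀ u t, (σ u t).card = k + 1) (hsum : ∀ u t, ∑ x ∈ σ u t, s x = u)
    (hdisj : ∀ u t t', t ≠ t' → Disjoint (σ u t) (σ u t'))
    (K : Type) [Field K] [Fintype K] [Algebra (GaloisField 2 m) K] [Module (ZMod 2) K]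
    (hK : ((2 ^ a) ^ k * (2 ^ m * 2) * (2 ^ a) ^ k) * ((2 ^ a + M) * 3) + (2 ^ a + M) +
      (k + 1) * (k + 1) + N + 1 < Fintype.card K) :
    ∃ n, N ≤ n ∧ minDensity n (k + 1) ≤ 300 := by
  classical
  have : Fintype (GaloisField 2 a) := Fintype.ofFinite _
  have : Fintype (GaloisField 2 m) := Fintype.ofFinite _
  have hF : Fintype.card (GaloisField 2 a) = 2 ^ a := by
    rw [← Nat.card_eq_fintype_card, GaloisField.card 2 a ha]
  have hL : Fintype.card (GaloisField 2 m) = 2 ^ m := by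
    rw [← Nat.card_eq_fintype_card, GaloisField.card 2 m hm]
  have hG : Fintype.card (Fin k → GaloisField 2 a) = (2 ^ a) ^ k := by
    rw [Fintype.card_fun, Fintype.card_fin, hF]
  have hX : Fintype.card (GaloisField 2 a ⊕ Fin M) = 2 ^ a + M := by
    rw [Fintype.card_sum, hF, Fintype.card_fin]
  have hK' : ∀ (A X0 R : ℕ), A + X0 + R + N + 1 < Fintype.card K →
      A < Fintype.card K ∧ X0 ≤ Fintype.card K ∧ R ≤ Fintype.card K ∧ N ≤ Fintype.card K := by
    intro A X0 R h
    omega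
  obtain ⟨hKa, hKx, hKr, hKn⟩ := hK' _ _ _ hK
  obtain ⟨b⟩ : Nonempty ((GaloisField 2 a ⊕ Fin M) ↪ K) := by
    apply Function.Embedding.nonempty_of_card_le
    rw [hX]
    exact hKx
  obtain ⟨S, hS⟩ := stCover stMom stAvoid (Fin k → GaloisField 2 a) (GaloisField 2 a ⊕ Fin M)
    (GaloisField 2 m) K k s σ b b.injective hcard hsum
    hdisj (by
      rw [hG, hL, hX]
      exact hKa)
  set n : ℕ := Fintype.card ((GaloisField 2 a ⊕ Fin M) × ((Fin k → GaloisField 2 a) × Fin 3 → K))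
    with hn
  set B : ℕ := Fintype.card ((Fin k → GaloisField 2 a) × Fin 3 → K) with hB
  have hnXB : n = (2 ^ a + M) * B := by
    rw [hn, Fintype.card_prod, hX]
  have hBK : Fintype.card K ≤ B := by
    rw [hB, Fintype.card_fun]
    apply Nat.le_self_pow
    have : 0 < Fintype.card ((Fin k → GaloisField 2 a) × Fin 3) := Fintype.card_pos
    omega
  have hnbig : Fintype.card K ≤ n := by
    have h1 : 1 ≤ 2 ^ a + M := by
      have : 0 < 2 ^ a := by positivity
      omega
    calc Fintype.card K ≤ B := hBK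
      _ ≤ (2 ^ a + M) * B := Nat.le_mul_of_pos_left _ h1
      _ = n := hnXB.symm
  refine ⟨n, hKn.trans hnbig, ?_⟩
  have hmd := minDensity_le (W := (Fin k → GaloisField 2 a) ×
    (Fin k → (Fin k → GaloisField 2 a) × Fin 3 → K) × ((Fin k → GaloisField 2 a) × Fin 3 → K) ×
      GaloisField 2 m) n (k + 1) S le_rfl hS
  refine hmd.trans ?_
  have hW : Nat.card ((Fin k → GaloisField 2 a) ×
    (Fin k → (Fin k → GaloisField 2 a) × Fin 3 → K) × ((Fin k → GaloisField 2 a) × Fin 3 → K) ×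
      GaloisField 2 m) = (2 ^ a) ^ k * (B ^ k * (B * 2 ^ m)) := by
    rw [Nat.card_eq_fintype_card, Fintype.card_prod, Fintype.card_prod, Fintype.card_prod, hG, hL,
      Fintype.card_fun (α := Fin k), Fintype.card_fin]
  rw [hW]
  have hball : (Nat.card (hammingBall n (k + 1)) : ℝ≥0∞) ≤
      (((n + (k + 1)).choose (k + 1) : ℕ) : ℝ≥0∞) := by
    exact_mod_cast card_ball_le n (k + 1)
  refine (ENNReal.div_le_div_right hball _).trans ?_
  refine num_end k (2 ^ a + M) B ((2 ^ a) ^ k) (2 ^ m) n hnXB (hKr.trans hnbig) (by positivity)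
    (by positivity) ?_ h3
  exact lt_of_lt_of_le Fintype.card_pos hBK

theorem stFin : StFin := by
  classical
  intro k hk
  obtain ⟨m, a, M, hm, ha, h3, s, σ, hcard, hsum, hdisj⟩ := start k hk
  unfold f
  apply Filter.liminf_le_of_frequently_le'
  rw [Filter.frequently_atTop]
  intro N
  set c0 : ℕ := ((2 ^ a) ^ k * (2 ^ m * 2) * (2 ^ a) ^ k) * ((2 ^ a + M) * 3) + (2 ^ a + M) +
    (k + 1) * (k + 1) + N + 1 with hc0
  have : NeZero c0 := ⟨Nat.succ_ne_zero _⟩
  have : Fintype (FiniteField.Extension (GaloisField 2 m) 2 c0) := Fintype.ofFinite _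
  have hK : Fintype.card (FiniteField.Extension (GaloisField 2 m) 2 c0) = (2 ^ m) ^ c0 := by
    rw [← Nat.card_eq_fintype_card, FiniteField.natCard_extension, GaloisField.card 2 m hm]
  have hc0K : c0 < Fintype.card (FiniteField.Extension (GaloisField 2 m) 2 c0) := by
    rw [hK]
    calc c0 < 2 ^ c0 := Nat.lt_two_pow_self
      _ ≤ (2 ^ m) ^ c0 := Nat.pow_le_pow_left (by
          calc 2 = 2 ^ 1 := rfl
            _ ≤ 2 ^ m := Nat.pow_le_pow_right (by norm_num) (by omega)) _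
  exact fin_aux k m a M N hm ha h3 s σ hcard hsum hdisj
    (FiniteField.Extension (GaloisField 2 m) 2 c0) hc0K

end Pool.Agent.MP073f2d.Ad
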