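import Pool.Agent.Work.MP_073f2d_co.Ad.Stmts

/-!
# MP_073f2d_co, project Ad: the adaptive blow-up
-/

namespace Pool.Agent.MP073f2d.Ad

open Finset

section Core

variable {G X K : Type} [AddCommGroup G] [Fintype G] [DecidableEq G] [Fintype X] [DecidableEq X]
    [Field K]

/-- The nodal weight. -/
def nw (b : X → K) (σ : Finset X) (x : X) : K := (∏ x' ∈ σ.erase x, (b x - b x'))⁻¹

omit [Fintype X] in
theorem nw_ne {b : X → K} (hb : Function.Injective b) (σ : Finset X) (x : X) : nw b σ x ≠ 0 := by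
  unfold nw
  apply inv_ne_zero
  rw [Finset.prod_ne_zero_iff]
  intro x' hx'
  rw [sub_ne_zero]
  intro h
  exact (Finset.ne_of_mem_erase hx') (hb h).symm

/-- The bracket: leading coefficient of the interpolation. -/
def br (b : X → K) (σ : Finset X) (a : X → K) : K := ∑ x ∈ σ, nw b σ x * a x

/-- The determinant of the block of `v`. -/
def Del (b : X → K) (σ : Finset X) (w p q c : X → K) (iv av ev : X → K) : K :=
  br b σ (fun x => av x * p x) + br b σ (fun x => ev x * q x) +
    br b σ (fun x => (1 - iv x) * c x) - br b σ (fun x => av x * w x) * br b σ p -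
    br b σ (fun x => ev x * w x) * br b σ q

omit [AddCommGroup G] [Fintype X] in
theorem inj_core (hMom : StMom) {k : ℕ} {σ : Finset X} (hσ : σ.card = k + 1) {b : X → K}
    (hb : Function.Injective b) (p q c : X → K) (iv av ev : G → X → K) (u : G) (t1 t2 : K)
    (hiv : ∀ x ∈ σ, iv u x = 1) (hav : ∀ x ∈ σ, av u x = t1) (hev : ∀ x ∈ σ, ev u x = t2)
    (hD : ∀ v, v ≠ u → Del b σ (fun x => b x ^ k) p q c (iv v) (av v) (ev v) ≠ 0)
    (y : X → G × Fin 3 → K) (hE : ∀ i < k, ∀ κ, ∑ x ∈ σ, b x ^ i * y x κ = 0)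
    (h1 : ∀ v, ∑ x ∈ σ, (b x ^ k * y x (v, 1) + p x * y x (v, 0)) = 0)
    (h2 : ∀ v, ∑ x ∈ σ, (b x ^ k * y x (v, 2) + q x * y x (v, 0)) = 0)
    (h0 : ∀ v, ∑ x ∈ σ, (iv v x * (b x ^ k * ∑ v', y x (v', 0)) +
      av v x * (b x ^ k * y x (v, 1) + p x * y x (v, 0)) +
      ev v x * (b x ^ k * y x (v, 2) + q x * y x (v, 0)) +
      (1 - iv v x) * (c x * y x (v, 0))) = 0) :
    ∀ x ∈ σ, y x = 0 := by
  set η : G × Fin 3 → K := fun κ => ∑ x ∈ σ, b x ^ k * y x κ with hη
  have hy : ∀ κ, ∀ x ∈ σ, y x κ = nw b σ x * η κ := by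
    intro κ x hx
    have h := hMom X K b σ (fun x => y x κ) hb (by
      rw [hσ]; intro i hi; exact hE i (by omega) κ) x hx
    rw [hσ] at h
    exact h
  have hbr : ∀ (a : X → K) (κ : G × Fin 3), ∑ x ∈ σ, a x * y x κ = br b σ a * η κ := by
    intro a κ
    unfold br
    rw [Finset.sum_mul]
    apply Finset.sum_congr rfl
    intro x hx
    rw [hy κ x hx]
    ring
  have e1 : ∀ v, η (v, 1) + br b σ p * η (v, 0) = 0 := by
    intro v
    rw [← h1 v, Finset.sum_add_distrib, hbr p (v, 0)]
  have e2 : ∀ v, η (v, 2) + br b σ q * η (v, 0) = 0 := by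
    intro v
    rw [← h2 v, Finset.sum_add_distrib, hbr q (v, 0)]
  set H : K := ∑ v', η (v', 0) with hH
  have hHx : ∀ a : X → K, ∑ x ∈ σ, a x * ∑ v', y x (v', 0) = br b σ a * H := by
    intro a
    rw [hH, Finset.mul_sum]
    simp_rw [Finset.mul_sum]
    rw [Finset.sum_comm]
    exact Finset.sum_congr rfl fun v _ => hbr a (v, 0)
  have e0 : ∀ v, br b σ (fun x => iv v x * b x ^ k) * H +
      (br b σ (fun x => av v x * b x ^ k) * η (v, 1) + br b σ (fun x => av v x * p x) * η (v, 0)) +
      (br b σ (fun x => ev v x * b x ^ k) * η (v, 2) + br b σ (fun x => ev v x * q x) * η (v, 0)) +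
      br b σ (fun x => (1 - iv v x) * c x) * η (v, 0) = 0 := by
    intro v
    rw [← h0 v, ← hHx, ← hbr, ← hbr, ← hbr, ← hbr, ← hbr, ← Finset.sum_add_distrib,
      ← Finset.sum_add_distrib, ← Finset.sum_add_distrib, ← Finset.sum_add_distrib,
      ← Finset.sum_add_distrib]
    apply Finset.sum_congr rfl
    intro x _
    ring
  have hH0 : H = 0 := by
    have h := h0 u
    have h3 : ∑ x ∈ σ, (iv u x * (b x ^ k * ∑ v', y x (v', 0)) +
      av u x * (b x ^ k * y x (u, 1) + p x * y x (u, 0)) +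
      ev u x * (b x ^ k * y x (u, 2) + q x * y x (u, 0)) +
      (1 - iv u x) * (c x * y x (u, 0))) = ∑ x ∈ σ, (b x ^ k * ∑ v', y x (v', 0)) +
        t1 * ∑ x ∈ σ, (b x ^ k * y x (u, 1) + p x * y x (u, 0)) +
        t2 * ∑ x ∈ σ, (b x ^ k * y x (u, 2) + q x * y x (u, 0)) := by
      rw [Finset.mul_sum, Finset.mul_sum, ← Finset.sum_add_distrib, ← Finset.sum_add_distrib]
      apply Finset.sum_congr rfl
      intro x hx
      rw [hiv x hx, hav x hx, hev x hx]
      ring
    rw [h3, h1, h2, mul_zero, mul_zero, add_zero, add_zero] at h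
    rw [hH, ← h]
    simp_rw [Finset.mul_sum]
    rw [Finset.sum_comm]
  have hη0 : ∀ v, v ≠ u → η (v, 0) = 0 := by
    intro v hv
    have h := e0 v
    have h1' := e1 v
    have h2' := e2 v
    have h3 : η (v, 1) = - (br b σ p * η (v, 0)) := by linear_combination h1'
    have h4 : η (v, 2) = - (br b σ q * η (v, 0)) := by linear_combination h2'
    rw [hH0, h3, h4] at h
    have h5 : Del b σ (fun x => b x ^ k) p q c (iv v) (av v) (ev v) * η (v, 0) = 0 := by
      unfold Del
      linear_combination h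
    rcases mul_eq_zero.1 h5 with h6 | h6
    · exact absurd h6 (hD v hv)
    · exact h6
  have hη0' : ∀ v, η (v, 0) = 0 := by
    intro v
    by_cases hv : v = u
    · subst hv
      have h : H = η (v, 0) := by
        rw [hH]
        exact Finset.sum_eq_single v (fun v' _ hv' => hη0 v' hv') (fun h => absurd (mem_univ v) h)
      rw [← h, hH0]
    · exact hη0 v hv
  have hη1 : ∀ v, η (v, 1) = 0 := by
    intro v
    have h := e1 v
    rw [hη0' v, mul_zero, add_zero] at h
    exact h
  have hη2 : ∀ v, η (v, 2) = 0 := by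
    intro v
    have h := e2 v
    rw [hη0' v, mul_zero, add_zero] at h
    exact h
  have hall : ∀ κ, η κ = 0 := by
    rintro ⟨v, i⟩
    fin_cases i
    · exact hη0' v
    · exact hη1 v
    · exact hη2 v
  intro x hx
  funext κ
  rw [hy κ x hx, hall κ, mul_zero]
  rfl

end Core

section Coef

variable {G X L K : Type} [AddCommGroup G] [Fintype G] [DecidableEq G] [Fintype X] [DecidableEq X]
    [Field L] [Fintype L] [Field K] [Fintype K] [Algebra L K]

/-- The second parameter. -/
def ep (K : Type) [Field K] (e : Bool) : K := if e then 1 else 0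

/-- The coefficients. -/
def av (K : Type) [Field K] [Algebra L K] (σ : G → L × Bool → Finset X) (v : G) (x : X) : K :=
  ∑ t, if x ∈ σ v t then algebraMap L K t.1 else 0

def ev (K : Type) [Field K] (σ : G → L × Bool → Finset X) (v : G) (x : X) : K :=
  ∑ t, if x ∈ σ v t then ep K t.2 else 0

def iv (K : Type) [Field K] (σ : G → L × Bool → Finset X) (v : G) (x : X) : K :=
  ∑ t, if x ∈ σ v t then 1 else 0

omit [AddCommGroup G] [Fintype G] [DecidableEq G] [Fintype X] [Field L] in
theorem sum_mem {M : Type} [AddCommMonoid M] (σ : G → L × Bool → Finset X)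
    (hdisj : ∀ u t t', t ≠ t' → Disjoint (σ u t) (σ u t')) (F : L × Bool → M) {v : G}
    {t : L × Bool} {x : X} (hx : x ∈ σ v t) : (∑ t', if x ∈ σ v t' then F t' else 0) = F t := by
  rw [Finset.sum_eq_single t]
  · rw [if_pos hx]
  · intro t' _ ht'
    rw [if_neg]
    intro hx'
    exact (Finset.disjoint_left.1 (hdisj v t' t ht')) hx' hx
  · intro h
    exact absurd (mem_univ t) h

omit [Fintype G] [DecidableEq G] [Fintype X] [Fintype K] in
/-- The form is not zero. -/
theorem form_ne {k : ℕ} {s : X → G} {σ : G → L × Bool → Finset X} {b : X → K}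
    (hb : Function.Injective b) (hcard : ∀ u t, (σ u t).card = k + 1)
    (hsum : ∀ u t, ∑ x ∈ σ u t, s x = u)
    (hdisj : ∀ u t t', t ≠ t' → Disjoint (σ u t) (σ u t')) {u v : G} {t : L × Bool}
    (huv : u ≠ v) (A B : K) :
    (fun i : X × Fin 3 => if i.1 ∈ σ u t then nw b (σ u t) i.1 *
      ![av K σ v i.1 - A, ev K σ v i.1 - B, 1 - iv K σ v i.1] i.2 else 0) ≠ 0 := by
  intro h
  have h0 : ∀ x ∈ σ u t, av K σ v x = A ∧ ev K σ v x = B ∧ iv K σ v x = 1 := by
    intro x hx
    have e : ∀ i : Fin 3, nw b (σ u t) x *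
        ![av K σ v x - A, ev K σ v x - B, 1 - iv K σ v x] i = 0 := by
      intro i
      have h1 := congrFun h (x, i)
      simp only [if_pos hx] at h1
      exact h1
    have e' : ∀ i : Fin 3, ![av K σ v x - A, ev K σ v x - B, 1 - iv K σ v x] i = 0 := by
      intro i
      exact (mul_eq_zero.1 (e i)).resolve_left (nw_ne hb _ _)
    refine ⟨?_, ?_, ?_⟩
    · exact sub_eq_zero.1 (e' 0)
    · exact sub_eq_zero.1 (e' 1)
    · exact (sub_eq_zero.1 (e' 2)).symm
  have h1 : ∀ x ∈ σ u t, ∃ t', x ∈ σ v t' ∧ algebraMap L K t'.1 = A ∧ ep K t'.2 = B := by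
    intro x hx
    obtain ⟨ha, he, hi⟩ := h0 x hx
    by_contra hcon
    push Not at hcon
    by_cases hex : ∃ t', x ∈ σ v t'
    · obtain ⟨t', ht'⟩ := hex
      refine hcon t' ht' ?_ ?_
      · rw [← ha]
        exact (sum_mem σ hdisj (fun t => algebraMap L K t.1) ht').symm
      · rw [← he]
        exact (sum_mem σ hdisj (fun t => ep K t.2) ht').symm
    · have : iv K σ v x = 0 := by
        unfold iv
        apply Finset.sum_eq_zero
        intro t' _
        rw [if_neg]
        exact fun h => hex ⟨t', h⟩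
      rw [this] at hi
      exact zero_ne_one hi
  have hne : (σ u t).Nonempty := by
    rw [← Finset.card_pos, hcard]
    exact Nat.succ_pos k
  obtain ⟨x0, hx0⟩ := hne
  obtain ⟨t0, hx0', hA0, hB0⟩ := h1 x0 hx0
  have hsub : σ u t ⊆ σ v t0 := by
    intro x hx
    obtain ⟨t', hx', hA', hB'⟩ := h1 x hx
    have e1 : t'.1 = t0.1 := (algebraMap L K).injective (hA'.trans hA0.symm)
    have e2 : t'.2 = t0.2 := by
      have h3 : ep K t'.2 = ep K t0.2 := hB'.trans hB0.symm
      unfold ep at h3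
      rcases Bool.eq_false_or_eq_true t'.2 with h4 | h4 <;>
        rcases Bool.eq_false_or_eq_true t0.2 with h5 | h5 <;> rw [h4, h5] at h3 ⊢ <;>
        simp at h3
    rw [← Prod.ext e1 e2]
    exact hx'
  have heq : σ u t = σ v t0 := Finset.eq_of_subset_of_card_le hsub (by rw [hcard, hcard])
  apply huv
  rw [← hsum u t, heq, hsum]

omit [Fintype G] [DecidableEq G] [Fintype K] [AddCommGroup G] in
theorem form_eq {σ : G → L × Bool → Finset X} {b w : X → K} (V : X × Fin 3 → K) (u v : G)
    (t : L × Bool) :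
    ∑ i : X × Fin 3, (if i.1 ∈ σ u t then nw b (σ u t) i.1 *
      ![av K σ v i.1 - br b (σ u t) (fun x => av K σ v x * w x),
        ev K σ v i.1 - br b (σ u t) (fun x => ev K σ v x * w x), 1 - iv K σ v i.1] i.2 else 0) *
        V i = Del b (σ u t) w (fun x => V (x, 0)) (fun x => V (x, 1)) (fun x => V (x, 2))
          (iv K σ v) (av K σ v) (ev K σ v) := by
  rw [Fintype.sum_prod_type]
  unfold Del
  set A := br b (σ u t) (fun x => av K σ v x * w x)
  set B := br b (σ u t) (fun x => ev K σ v x * w x)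
  have h : ∀ x : X, ∑ i : Fin 3, (if x ∈ σ u t then nw b (σ u t) x *
      ![av K σ v x - A, ev K σ v x - B, 1 - iv K σ v x] i else 0) * V (x, i) =
      if x ∈ σ u t then nw b (σ u t) x * ((av K σ v x - A) * V (x, 0) +
        (ev K σ v x - B) * V (x, 1) + (1 - iv K σ v x) * V (x, 2)) else 0 := by
    intro x
    rw [Fin.sum_univ_three]
    by_cases hx : x ∈ σ u t
    · simp only [if_pos hx]
      simp
      ring
    · simp only [if_neg hx]
      ring
  simp_rw [h]
  rw [Finset.sum_ite_mem, Finset.univ_inter]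
  unfold br
  rw [Finset.mul_sum, Finset.mul_sum, ← Finset.sum_add_distrib, ← Finset.sum_add_distrib,
    ← Finset.sum_sub_distrib, ← Finset.sum_sub_distrib]
  apply Finset.sum_congr rfl
  intro x _
  ring

end Coef

end Pool.Agent.MP073f2d.Ad
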