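import Mathlib
import Pool.Prelude.Def_F_7905cbea

/-!
# MP_073f2d_co, project Ad (adaptive blow-up): `f r ≤ 300` for every `r ≥ 2`

Statements of the steps, see note 2229.
-/

namespace Pool.Agent.MP073f2d.Ad

open Finset N8b55e67f
open scoped ENNReal

/-- If the moments of `y` on `b(σ)` of order `< |σ| - 1` vanish, then `y` is a multiple of the
vector of the nodal weights. -/
def StMom : Prop :=
  ∀ (X K : Type) [DecidableEq X] [Field K] (b : X → K) (σ : Finset X) (y : X → K),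
    Function.Injective b → (∀ i < σ.card - 1, ∑ x ∈ σ, b x ^ i * y x = 0) →
    ∀ x ∈ σ, y x = (∏ x' ∈ σ.erase x, (b x - b x'))⁻¹ * ∑ x' ∈ σ, b x' ^ (σ.card - 1) * y x'

/-- Finitely many nonzero linear forms over a large finite field have a common non-zero. -/
def StAvoid : Prop :=
  ∀ (ι J K : Type) [Fintype ι] [Fintype J] [Field K] [Fintype K] (Λ : J → ι → K),
    (∀ j, Λ j ≠ 0) → Fintype.card J * Fintype.card ι < Fintype.card K →
    ∃ v : ι → K, ∀ j, ∑ i, Λ j i * v i ≠ 0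

/-- The adaptive blow-up. -/
def StCover : Prop :=
  ∀ (G X L K : Type) [AddCommGroup G] [Fintype G] [DecidableEq G] [Fintype X] [DecidableEq X]
    [Field L] [Fintype L] [Field K] [Fintype K] [Algebra L K] (k : ℕ) (s : X → G)
    (σ : G → L × Bool → Finset X) (b : X → K),
    Function.Injective b → (∀ u t, (σ u t).card = k + 1) → (∀ u t, ∑ x ∈ σ u t, s x = u) →
    (∀ u t t', t ≠ t' → Disjoint (σ u t) (σ u t')) →
    (Fintype.card G * (Fintype.card L * 2) * Fintype.card G) * (Fintype.card X * 3) <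
      Fintype.card K →
    ∃ S : X × (G × Fin 3 → K) → G × (Fin k → G × Fin 3 → K) × (G × Fin 3 → K) × L,
      ∀ w, ∃ A : Finset (X × (G × Fin 3 → K)), A.card ≤ k + 1 ∧ ∑ i ∈ A, S i = w

/-- The power sums of odd order `< 2 k` determine a set with `k` elements (BCH codes). -/
def StBCH : Prop :=
  ∀ (F : Type) [Field F] [Fintype F] [CharP F 2] [DecidableEq F] (k : ℕ) (A B : Finset F),
    A.card = k → B.card = k →
    (∀ i : Fin k, ∑ x ∈ A, x ^ (2 * (i : ℕ) + 1) = ∑ x ∈ B, x ^ (2 * (i : ℕ) + 1)) → A = B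

/-- The potential argument: `M` further labels such that every `u` has `N` pairwise disjoint
representations as the sum of a `k`-subset of `Y` and one further label. -/
def StPot : Prop :=
  ∀ (G Y : Type) [AddCommGroup G] [Fintype G] [DecidableEq G] [Fintype Y] [DecidableEq Y]
    (s : Y → G) (k N h M : ℕ),
    (∀ A B : Finset Y, A.card = k → B.card = k → ∑ y ∈ A, s y = ∑ y ∈ B, s y → A = B) →
    1 ≤ h → (∀ a ≤ k * N, Fintype.card G ≤ h * (Fintype.card Y - a).choose k) →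
    (Fintype.card G : ℝ) * (1 - 1 / (2 * h)) ^ M < (1 / 2) ^ N →
    ∃ ζ : Fin M → G, ∀ u : G, ∃ (ρ : Fin N → Finset Y) (z : Fin N → Fin M),
      (∀ i, (ρ i).card = k) ∧ (∀ i j, i ≠ j → Disjoint (ρ i) (ρ j)) ∧
      Function.Injective z ∧ ∀ i, ∑ y ∈ ρ i, s y + ζ (z i) = u

/-- The parameters. -/
def StNum : Prop :=
  ∀ k : ℕ, 1 ≤ k → ∃ m a M : ℕ, m ≠ 0 ∧ a ≠ 0 ∧
    (∀ c ≤ k * (2 * 2 ^ m), (2 ^ a) ^ k ≤ (2 * k.factorial) * (2 ^ a - c).choose k) ∧
    (((2 ^ a) ^ k : ℕ) : ℝ) * (1 - 1 / (2 * ((2 * k.factorial : ℕ) : ℝ))) ^ M <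
      (1 / 2) ^ (2 * 2 ^ m) ∧
    (2 ^ a + M) ^ (k + 1) ≤ 96 * ((k + 1).factorial * (2 ^ a) ^ k * 2 ^ m)

/-- The bound. -/
def StFin : Prop := ∀ k : ℕ, 1 ≤ k → f (k + 1) ≤ 300

end Pool.Agent.MP073f2d.Ad
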